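import Pool.Agent.TH824.BK.Mats

open Polynomial IsDedekindDomain Matrix MeasureTheory
open scoped WithZero RestrictedProduct

noncomputable section
namespace TH824.BK

private lemma ext2 {F : Type} [Field F] {g h : GL (Fin 2) F}
    (H : (g : Matrix (Fin 2) (Fin 2) F) = (h : Matrix (Fin 2) (Fin 2) F)) : g = h := Units.ext H

private lemma amat_mul' {F : Type} [Field F] (a b : Fˣ) : amat (a * b) = amat a * amat b := by
  apply ext2
  simp [Units.val_mul, Matrix.mul_fin_two]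

private lemma smat_sq {F : Type} [Field F] : (smat : GL (Fin 2) F) * smat = 1 := by
  apply ext2
  simp [Units.val_mul, Matrix.mul_fin_two, Matrix.one_fin_two]

private lemma amat_nmat {F : Type} [Field F] (a : Fˣ) (y : F) :
    amat a * nmat y = nmat ((a : F) * y) * amat a := by
  apply ext2
  simp [Units.val_mul, Matrix.mul_fin_two]

private lemma nmat_add {F : Type} [Field F] (x y : F) : nmat (x + y) = nmat x * nmat y := by
  apply ext2
  simp [Units.val_mul, Matrix.mul_fin_two, add_comm]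

private lemma nmat_zero {F : Type} [Field F] : nmat (0 : F) = 1 := by
  apply ext2
  simp [Matrix.one_fin_two]

private lemma st_s {F : Type} [Field F] [Valued F ℤᵐ⁰] {V : Type} [AddCommGroup V] [Module ℂ V]
    {ρ : Representation ℂ (GL (Fin 2) F) V} {p : Fˣ} {u : V} (hu : IsStVec ρ p u) :
    ρ smat u = - ρ (amat p) u := by
  have h1 := hu.w
  have h2 : ρ smat (ρ (wmat p) u) = ρ (amat p) u := by
    rw [← Module.End.mul_apply, ← map_mul]
    congr 2
    rw [wmat, ← mul_assoc, smat_sq, one_mul]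
  rw [h1, map_neg] at h2
  rw [← h2, neg_neg]

private lemma st_split {F : Type} [Field F] [Valued F ℤᵐ⁰] {V : Type} [AddCommGroup V] [Module ℂ V]
    {ρ : Representation ℂ (GL (Fin 2) F) V} {p : Fˣ} {u : V} (hu : IsStVec ρ p u) :
    ρ (amat p) u + ρ (nmat 1 * amat p) u = u := by
  have h1 := hu.star
  rw [map_mul, Module.End.mul_apply, st_s hu, map_neg] at h1
  rw [map_mul, Module.End.mul_apply]
  have h2 : u = ρ (amat p) u + ρ (nmat 1) (ρ (amat p) u) := by
    rw [← sub_eq_zero, ← h1]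
    abel
  exact h2.symm

theorem st_sum {F : Type} [Field F] [Valued F ℤᵐ⁰] {V : Type} [AddCommGroup V] [Module ℂ V]
    (ρ : Representation ℂ (GL (Fin 2) F) V) (p : Fˣ)
    (u : V) (hu : IsStVec ρ p u) (n m : ℕ) :
    ρ (amat (p ^ m)) u = ∑ c : Fin n → Fin 2,
      ρ (nmat (∑ i : Fin n, ((c i : ℕ) : F) * (p : F) ^ (m + (i : ℕ))) * amat (p ^ (m + n))) u := by
  induction n with
  | zero =>
    simp [nmat_zero]
  | succ n ih =>
    rw [ih, ← (Fin.snocEquiv (fun _ : Fin (n + 1) => Fin 2)).sum_comp, Fintype.sum_prod_type,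
      Finset.sum_comm]
    refine Finset.sum_congr rfl fun c _ => ?_
    rw [Fin.sum_univ_two]
    have e : ∀ d : Fin 2, (∑ i : Fin (n + 1),
        (((Fin.snocEquiv (fun _ : Fin (n + 1) => Fin 2)) (d, c) i : Fin 2) : ℕ) *
          (p : F) ^ (m + (i : ℕ))) =
        (∑ i : Fin n, ((c i : ℕ) : F) * (p : F) ^ (m + (i : ℕ))) +
          ((d : ℕ) : F) * (p : F) ^ (m + n) := by
      intro d
      rw [Fin.sum_univ_castSucc]
      congr 1
      · refine Finset.sum_congr rfl fun i _ => ?_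
        simp [Fin.snocEquiv]
      · simp [Fin.snocEquiv]
    rw [e, e]
    have e0 : (((0 : Fin 2) : ℕ) : F) = 0 := by simp
    have e1 : (((1 : Fin 2) : ℕ) : F) = 1 := by simp
    rw [e0, e1, zero_mul, add_zero, one_mul]
    set x : F := ∑ i : Fin n, ((c i : ℕ) : F) * (p : F) ^ (m + (i : ℕ)) with hx
    have e2 : nmat x * amat (p ^ (m + (n + 1))) = nmat x * amat (p ^ (m + n)) * amat p := by
      rw [← add_assoc, pow_succ, amat_mul', mul_assoc]
    have e3 : nmat (x + (p : F) ^ (m + n)) * amat (p ^ (m + (n + 1))) =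
        nmat x * amat (p ^ (m + n)) * (nmat 1 * amat p) := by
      rw [← add_assoc, pow_succ, amat_mul', nmat_add]
      have := amat_nmat (p ^ (m + n)) (1 : F)
      rw [mul_one, Units.val_pow_eq_pow_val] at this
      rw [mul_assoc, mul_assoc, ← mul_assoc (nmat ((p : F) ^ (m + n))), ← this]
      simp only [mul_assoc]
    rw [e2, e3]
    conv_lhs => rw [← st_split hu]
    rw [map_add, ← Module.End.mul_apply, ← Module.End.mul_apply, ← map_mul, ← map_mul]

/-! ### Cartan -/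

private def PP {F : Type} [Field F] [Valued F ℤᵐ⁰] {V : Type} [AddCommGroup V] [Module ℂ V]
    (ρ : Representation ℂ (GL (Fin 2) F) V) (p : Fˣ) (u : V) (g : GL (Fin 2) F) : Prop :=
  ∃ k ∈ GO F, ∃ n : ℕ, ρ g u = ρ (k * amat (p ^ n)) u ∨ ρ g u = - ρ (k * amat (p ^ n)) u

section

variable {F : Type} [Field F] [Valued F ℤᵐ⁰] {V : Type} [AddCommGroup V] [Module ℂ V]
    {ρ : Representation ℂ (GL (Fin 2) F) V} {p : Fˣ} {u : V}

private lemma PP.left {g : GL (Fin 2) F} (h : PP ρ p u g) {k : GL (Fin 2) F} (hk : k ∈ GO F) :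
    PP ρ p u (k * g) := by
  obtain ⟨k', hk', n, h⟩ := h
  refine ⟨k * k', (GO F).mul_mem hk hk', n, ?_⟩
  rw [mul_assoc, map_mul ρ k g, map_mul ρ k _, Module.End.mul_apply, Module.End.mul_apply]
  rcases h with h | h
  · left; rw [h]
  · right; rw [h, map_neg]

private lemma PP.of_left {g k : GL (Fin 2) F} (hk : k ∈ GO F) (h : PP ρ p u (k * g)) :
    PP ρ p u g := by
  have := h.left ((GO F).inv_mem hk)
  rwa [inv_mul_cancel_left] at this

private lemma PP.congr {g g' : GL (Fin 2) F} (h : PP ρ p u g') (hg : ρ g u = ρ g' u) :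
    PP ρ p u g := by
  obtain ⟨k', hk', n, h⟩ := h
  exact ⟨k', hk', n, by rwa [hg]⟩

private lemma PP.neg {g g' : GL (Fin 2) F} (h : PP ρ p u g') (hg : ρ g u = - ρ g' u) :
    PP ρ p u g := by
  obtain ⟨k', hk', n, h⟩ := h
  refine ⟨k', hk', n, ?_⟩
  rcases h with h | h
  · right; rw [hg, h]
  · left; rw [hg, h, neg_neg]

private lemma PP.iw (hu : IsStVec ρ p u) {g j : GL (Fin 2) F} (hj : j ∈ Iw F) (h : PP ρ p u g) :
    PP ρ p u (g * j) := by
  refine h.congr ?_
  rw [map_mul, Module.End.mul_apply, hu.iw j hj]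

private lemma PP.of_iw (hu : IsStVec ρ p u) {g j : GL (Fin 2) F} (hj : j ∈ Iw F)
    (h : PP ρ p u (g * j)) : PP ρ p u g := by
  refine h.congr ?_
  rw [map_mul, Module.End.mul_apply, hu.iw j hj]

private lemma PP.z (hu : IsStVec ρ p u) {g : GL (Fin 2) F} (z : Fˣ) (h : PP ρ p u g) :
    PP ρ p u (g * zmat z) := by
  refine h.congr ?_
  rw [map_mul, Module.End.mul_apply, hu.z z]

private lemma amat_mem_Iw {ε : Fˣ} (hε : Valued.v (ε : F) = 1) : amat ε ∈ Iw F := by
  refine ⟨⟨fun i j => ?_, ?_⟩, ?_⟩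
  · fin_cases i <;> fin_cases j <;> simp [hε]
  · simp [hε, Matrix.det_fin_two]
  · simp

private lemma nmat_mem_Iw {x : F} (hx : Valued.v x ≤ 1) : nmat x ∈ Iw F := by
  refine ⟨⟨fun i j => ?_, ?_⟩, ?_⟩
  · fin_cases i <;> fin_cases j <;> simp [hx]
  · simp [Matrix.det_fin_two]
  · simp

private lemma smat_mem_GO : (smat : GL (Fin 2) F) ∈ GO F := by
  refine ⟨fun i j => ?_, ?_⟩
  · fin_cases i <;> fin_cases j <;> simp
  · simp [Matrix.det_fin_two, Valuation.map_neg]

/-- lower unipotent -/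
private def lm (y : F) : GL (Fin 2) F := smat * nmat y * smat

private lemma coe_lm (y : F) : ((lm y : GL (Fin 2) F) : Matrix (Fin 2) (Fin 2) F) =
    !![1, 0; y, 1] := by
  simp [lm, Units.val_mul, Matrix.mul_fin_two]

private lemma lm_mem_Iw {y : F} (hy : Valued.v y < 1) : lm y ∈ Iw F := by
  refine ⟨⟨fun i j => ?_, ?_⟩, ?_⟩
  · rw [coe_lm]
    fin_cases i <;> fin_cases j <;> simp [hy.le]
  · rw [coe_lm]; simp [Matrix.det_fin_two]
  · rw [coe_lm]; simpa using hy

private lemma PP.amat_zpow (hu : IsStVec ρ p u) (m : ℤ) : PP ρ p u (amat (p ^ m)) := by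
  rcases le_or_gt 0 m with h | h
  · obtain ⟨n, rfl⟩ := Int.eq_ofNat_of_zero_le h
    exact ⟨1, (GO F).one_mem, n, Or.inl (by rw [one_mul]; simp)⟩
  · obtain ⟨n, hn⟩ := Int.eq_ofNat_of_zero_le (by omega : 0 ≤ -m)
    have hm : m = -(n : ℤ) := by omega
    subst hm
    refine ⟨smat, smat_mem_GO, n + 1, Or.inr ?_⟩
    have e1 : amat (p ^ (-(n : ℤ))) = smat * amat (p ^ n) * smat * zmat (p ^ (-(n : ℤ))) := by
      apply ext2
      simp [Units.val_mul, Matrix.mul_fin_two]
    rw [e1, map_mul, Module.End.mul_apply, hu.z, map_mul, Module.End.mul_apply, st_s hu, map_neg,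
      ← Module.End.mul_apply, ← map_mul, pow_succ, amat_mul', mul_assoc]

private lemma exists_pow (hp : Valued.v (p : F) = WithZero.exp (-1 : ℤ)) (a : Fˣ) :
    ∃ (m : ℤ) (ε : Fˣ), Valued.v (ε : F) = 1 ∧ a = p ^ m * ε := by
  have ha : Valued.v (a : F) ≠ 0 := (Valuation.ne_zero_iff _).mpr a.ne_zero
  refine ⟨-(WithZero.log (Valued.v (a : F))), p ^ (WithZero.log (Valued.v (a : F))) * a, ?_, ?_⟩
  · rw [Units.val_mul, map_mul, Units.val_zpow_eq_zpow_val, map_zpow₀, hp, ← WithZero.exp_zsmul]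
    conv_lhs => rw [← WithZero.exp_log ha]
    rw [← WithZero.exp_add]
    simp
  · rw [← mul_assoc, ← _root_.zpow_add]
    simp

private lemma PP.amat (hu : IsStVec ρ p u) (hp : Valued.v (p : F) = WithZero.exp (-1 : ℤ))
    (a : Fˣ) : PP ρ p u (amat a) := by
  obtain ⟨m, ε, hε, rfl⟩ := exists_pow hp a
  rw [amat_mul']
  exact PP.iw hu (amat_mem_Iw hε) (PP.amat_zpow hu m)

private lemma PP.na (hu : IsStVec ρ p u) (hp : Valued.v (p : F) = WithZero.exp (-1 : ℤ))
    (a : Fˣ) (x : F) : PP ρ p u (nmat x * TH824.BK.amat a) := by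
  by_cases h1 : Valued.v x ≤ 1
  · exact (PP.amat hu hp a).left (nmat_mem_Iw h1).1
  by_cases h2 : Valued.v x ≤ Valued.v (a : F)
  · have e1 : nmat x * TH824.BK.amat a = TH824.BK.amat a * nmat ((a : F)⁻¹ * x) := by
      rw [amat_nmat, mul_inv_cancel_left₀ a.ne_zero]
    rw [e1]
    refine PP.iw hu (nmat_mem_Iw ?_) (PP.amat hu hp a)
    have ha : Valued.v (a : F) ≠ 0 := (Valuation.ne_zero_iff _).mpr a.ne_zero
    rw [map_mul, map_inv₀]
    calc (Valued.v (a : F))⁻¹ * Valued.v x ≤ (Valued.v (a : F))⁻¹ * Valued.v (a : F) :=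
          mul_le_mul_right h2 _
      _ = 1 := inv_mul_cancel₀ ha
  · push Not at h1 h2
    have hx : x ≠ 0 := by
      rintro rfl
      rw [map_zero] at h1
      exact absurd h1 (not_lt.mpr zero_le_one)
    have hvx : Valued.v x ≠ 0 := (Valuation.ne_zero_iff _).mpr hx
    apply PP.of_left smat_mem_GO
    set X : Fˣ := Units.mk0 x hx with hX
    have e1 : smat * (nmat x * TH824.BK.amat a) = nmat (x⁻¹) * (TH824.BK.amat (-(X⁻¹ * X⁻¹) * a) *
        lm ((a : F) * x⁻¹) * zmat X) := by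
      apply ext2
      simp only [Units.val_mul, coe_smat, coe_nmat, coe_amat, coe_lm, coe_zmat,
        Matrix.mul_fin_two, Units.val_neg, Units.val_inv_eq_inv_val, hX, Units.val_mk0]
      ext i j
      fin_cases i <;> fin_cases j <;> simp <;> field_simp <;> ring
    rw [e1]
    refine PP.left (PP.z hu X (PP.iw hu (lm_mem_Iw ?_) (PP.amat hu hp _))) (nmat_mem_Iw ?_).1
    · rw [map_mul, map_inv₀]
      calc Valued.v (a : F) * (Valued.v x)⁻¹ < Valued.v x * (Valued.v x)⁻¹ :=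
            mul_lt_mul_of_pos_right h2 (by
              rw [inv_pos]; exact zero_lt_iff.mpr hvx)
        _ = 1 := mul_inv_cancel₀ hvx
    · rw [map_inv₀]
      exact inv_le_one_of_one_le₀ h1.le

private lemma PP.upper (hu : IsStVec ρ p u) (hp : Valued.v (p : F) = WithZero.exp (-1 : ℤ))
    (g : GL (Fin 2) F) (hg : (g : Matrix (Fin 2) (Fin 2) F) 1 0 = 0) : PP ρ p u g := by
  have hdet : (g : Matrix (Fin 2) (Fin 2) F).det ≠ 0 := g.det.ne_zero
  rw [Matrix.det_fin_two, hg, mul_zero, sub_zero] at hdet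
  have h0 := left_ne_zero_of_mul hdet
  have h1 := right_ne_zero_of_mul hdet
  set A : Fˣ := Units.mk0 _ h0 with hA
  set D : Fˣ := Units.mk0 _ h1 with hD
  have e1 : g = nmat ((g : Matrix (Fin 2) (Fin 2) F) 0 1 * (D : F)⁻¹) *
      TH824.BK.amat (A * D⁻¹) * zmat D := by
    apply ext2
    rw [Matrix.eta_fin_two (g : Matrix (Fin 2) (Fin 2) F), hg]
    simp only [Units.val_mul, coe_nmat, coe_amat, coe_zmat, Matrix.mul_fin_two,
      Units.val_inv_eq_inv_val, hA, hD, Units.val_mk0]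
    ext i j
    fin_cases i <;> fin_cases j <;> simp [h1]
  rw [e1]
  exact PP.z hu D (PP.na hu hp _ _)

private lemma PP.low (hu : IsStVec ρ p u) (hp : Valued.v (p : F) = WithZero.exp (-1 : ℤ))
    (g : GL (Fin 2) F) (hg : Valued.v ((g : Matrix (Fin 2) (Fin 2) F) 1 0) <
      Valued.v ((g : Matrix (Fin 2) (Fin 2) F) 1 1)) : PP ρ p u g := by
  have hd : Valued.v ((g : Matrix (Fin 2) (Fin 2) F) 1 1) ≠ 0 := by
    intro h
    rw [h] at hg
    exact not_lt_zero hg
  have hd' : (g : Matrix (Fin 2) (Fin 2) F) 1 1 ≠ 0 := (Valuation.ne_zero_iff _).mp hd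
  refine PP.of_iw hu (j := lm (-((g : Matrix (Fin 2) (Fin 2) F) 1 0) /
    (g : Matrix (Fin 2) (Fin 2) F) 1 1)) (lm_mem_Iw ?_) (PP.upper hu hp _ ?_)
  · rw [map_div₀, Valuation.map_neg]
    exact (div_lt_one₀ (zero_lt_iff.mpr hd)).mpr hg
  · rw [Units.val_mul, coe_lm, Matrix.mul_apply, Fin.sum_univ_two]
    simp
    field_simp
    ring

end

theorem st_cartan {F : Type} [Field F] [Valued F ℤᵐ⁰] {V : Type} [AddCommGroup V] [Module ℂ V]
    (ρ : Representation ℂ (GL (Fin 2) F) V) (p : Fˣ)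
    (hp : Valued.v (p : F) = WithZero.exp (-1 : ℤ))
    (u : V) (hu : IsStVec ρ p u) (g : GL (Fin 2) F) :
    ∃ k ∈ GO F, ∃ n : ℕ, ρ g u = ρ (k * amat (p ^ n)) u ∨ ρ g u = - ρ (k * amat (p ^ n)) u := by
  change PP ρ p u g
  by_cases h : Valued.v ((g : Matrix (Fin 2) (Fin 2) F) 1 0) <
      Valued.v ((g : Matrix (Fin 2) (Fin 2) F) 1 1)
  · exact PP.low hu hp g h
  · push Not at h
    have hc : (g : Matrix (Fin 2) (Fin 2) F) 1 0 ≠ 0 := by
      intro h0
      rw [h0, map_zero] at h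
      have h1 : (g : Matrix (Fin 2) (Fin 2) F) 1 1 = 0 :=
        (Valuation.zero_iff _).mp (le_antisymm h _root_.zero_le)
      have hdet : (g : Matrix (Fin 2) (Fin 2) F).det ≠ 0 := g.det.ne_zero
      rw [Matrix.det_fin_two, h0, h1] at hdet
      simp at hdet
    have hvc : Valued.v ((g : Matrix (Fin 2) (Fin 2) F) 1 0) ≠ 0 :=
      (Valuation.ne_zero_iff _).mpr hc
    refine PP.neg (PP.low hu hp (g * (wmat p)⁻¹) ?_) ?_
    · have e1 : (((wmat p)⁻¹ : GL (Fin 2) F) : Matrix (Fin 2) (Fin 2) F) =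
          !![0, (p : F)⁻¹; 1, 0] := by
        have : (wmat p)⁻¹ = (⟨!![0, (p : F)⁻¹; 1, 0], !![0, 1; (p : F), 0],
            by simp [Matrix.one_fin_two], by simp [Matrix.one_fin_two]⟩ : GL (Fin 2) F) := by
          rw [inv_eq_iff_mul_eq_one]
          apply ext2
          simp [Units.val_mul, Matrix.mul_fin_two, Matrix.one_fin_two]
        rw [this]
      rw [Units.val_mul, e1]
      simp only [Matrix.mul_apply, Fin.sum_univ_two]
      simp only [Matrix.of_apply, Matrix.cons_val', Matrix.cons_val_zero, Matrix.cons_val_one,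
        Matrix.cons_val_fin_one, mul_zero, zero_add, mul_one, add_zero]
      refine lt_of_le_of_lt h ?_
      rw [map_mul, map_inv₀, hp]
      conv_lhs => rw [← WithZero.exp_log hvc]
      conv_rhs => rw [← WithZero.exp_log hvc]
      rw [← WithZero.exp_neg, ← WithZero.exp_add, WithZero.exp_lt_exp]
      omega
    · conv_lhs => rw [← inv_mul_cancel_right g (wmat p)]
      rw [map_mul, Module.End.mul_apply, hu.w, map_neg]

end TH824.BK
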