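import Pool.Agent.TH824.BK.Mats

open Polynomial IsDedekindDomain Matrix MeasureTheory
open scoped WithZero RestrictedProduct Topology

noncomputable section
namespace TH824.BK

private theorem nhds_ball {F : Type} [Field F] [Valued F ℤᵐ⁰] {s : Set F} {x : F} (h : s ∈ 𝓝 x) :
    ∃ M : ℕ, ∀ y : F, Valued.v (y - x) ≤ WithZero.exp (-(M : ℤ)) → y ∈ s := by
  obtain ⟨γ, hγ⟩ := Valued.mem_nhds.mp h
  have hγ0 : (MonoidWithZeroHom.ValueGroup₀.embedding γ.1 : ℤᵐ⁰) ≠ 0 := by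
    rw [_root_.map_ne_zero]
    exact γ.ne_zero
  set r : ℤᵐ⁰ := MonoidWithZeroHom.ValueGroup₀.embedding γ.1 with hr
  have hr2 : r = WithZero.exp (WithZero.log r) := (WithZero.exp_log hγ0).symm
  refine ⟨(-(WithZero.log r) + 1).toNat, fun y hy => hγ ?_⟩
  change Valued.v.restrict (y - x) < γ.1
  rw [Valuation.restrict_lt_iff_lt_embedding]
  refine lt_of_le_of_lt hy ?_
  rw [← hr]
  have h3 : WithZero.exp (-((-(WithZero.log r) + 1).toNat : ℤ)) < WithZero.exp (WithZero.log r) := by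
    rw [WithZero.exp_lt_exp]
    have := Int.self_le_toNat (-(WithZero.log r) + 1)
    omega
  exact lt_of_lt_of_eq h3 hr2.symm

private theorem nhds_mat' {F : Type} [Field F] [Valued F ℤᵐ⁰] {s : Set (Fin 2 → Fin 2 → F)}
    {x : Fin 2 → Fin 2 → F} (h : s ∈ 𝓝 x) :
    ∃ M : ℕ, ∀ y : Fin 2 → Fin 2 → F,
      (∀ i j, Valued.v (y i j - x i j) ≤ WithZero.exp (-(M : ℤ))) → y ∈ s := by
  rw [nhds_pi, Filter.mem_pi'] at h
  obtain ⟨I, t, ht, hI⟩ := h
  have h2 : ∀ i, ∃ M : ℕ, ∀ y : Fin 2 → F,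
      (∀ j, Valued.v (y j - x i j) ≤ WithZero.exp (-(M : ℤ))) → y ∈ t i := by
    intro i
    have h3 := ht i
    rw [nhds_pi, Filter.mem_pi'] at h3
    obtain ⟨J, u, hu, hJ⟩ := h3
    choose M hM using fun j => nhds_ball (hu j)
    refine ⟨Finset.univ.sup M, fun y hy => hJ fun j _ => hM j _ ((hy j).trans ?_)⟩
    rw [WithZero.exp_le_exp]
    have := Finset.le_sup (f := M) (Finset.mem_univ j)
    omega
  choose M hM using h2
  refine ⟨Finset.univ.sup M, fun y hy => hI fun i _ => hM i _ fun j => (hy i j).trans ?_⟩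
  rw [WithZero.exp_le_exp]
  have := Finset.le_sup (f := M) (Finset.mem_univ i)
  omega

private theorem nhds_mat {F : Type} [Field F] [Valued F ℤᵐ⁰] {s : Set (Matrix (Fin 2) (Fin 2) F)}
    {x : Matrix (Fin 2) (Fin 2) F} (h : s ∈ 𝓝 x) :
    ∃ M : ℕ, ∀ y : Matrix (Fin 2) (Fin 2) F,
      (∀ i j, Valued.v (y i j - x i j) ≤ WithZero.exp (-(M : ℤ))) → y ∈ s :=
  nhds_mat' (F := F) (s := s) (x := x) h

theorem open_contains_KM {F : Type} [Field F] [Valued F ℤᵐ⁰] (U : Subgroup (GL (Fin 2) F))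
    (hU : IsOpen (U : Set (GL (Fin 2) F))) : ∃ M : ℕ, KM F M ≤ U := by
  have h1 : (U : Set (GL (Fin 2) F)) ∈ 𝓝 (1 : GL (Fin 2) F) := hU.mem_nhds U.one_mem
  rw [Units.isEmbedding_embedProduct.isInducing.nhds_eq_comap, Filter.mem_comap] at h1
  obtain ⟨t, ht, hs⟩ := h1
  rw [map_one] at ht
  obtain ⟨A, hA, B, hB, hAB⟩ := mem_nhds_prod_iff.mp ht
  have hB' : MulOpposite.op ⁻¹' B ∈ 𝓝 (1 : Matrix (Fin 2) (Fin 2) F) :=
    MulOpposite.continuous_op.continuousAt.preimage_mem_nhds hB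
  obtain ⟨M1, hM1⟩ := nhds_mat hA
  obtain ⟨M2, hM2⟩ := nhds_mat hB'
  refine ⟨M1 + M2, fun g hg => hs (hAB ⟨hM1 _ fun i j => ?_, hM2 _ fun i j => ?_⟩)⟩
  · refine (hg.2 i j).trans ?_
    rw [WithZero.exp_le_exp]
    push_cast
    omega
  · refine (((KM F (M1 + M2)).inv_mem hg).2 i j).trans ?_
    rw [WithZero.exp_le_exp]
    push_cast
    omega

private theorem isOpen_le {F : Type} [Field F] [Valued F ℤᵐ⁰] {r : ℤᵐ⁰} (hr : r ≠ 0) :
    IsOpen {x : F | Valued.v x ≤ r} := by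
  by_cases h : ∃ x0 : F, Valued.v x0 ≠ 0 ∧ Valued.v x0 ≤ r
  · obtain ⟨x0, h0, h1⟩ := h
    rw [isOpen_iff_mem_nhds]
    intro x hx
    rw [Valued.mem_nhds]
    have h' : Valued.v.restrict x0 ≠ 0 := by
      simp only [ne_eq, map_eq_zero]
      rintro rfl
      exact h0 (map_zero _)
    refine ⟨Units.mk0 _ h', fun y hy => ?_⟩
    have hy' : Valued.v (y - x) < Valued.v x0 := Valued.v.restrict_lt_iff.mp hy
    have e : y = (y - x) + x := by ring
    change Valued.v y ≤ r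
    rw [e]
    exact (Valuation.map_add _ _ _).trans (max_le (hy'.le.trans h1) hx)
  · push Not at h
    have := Valued.discreteTopology_of_forall_lt (K := F) hr h
    exact isOpen_discrete _

private theorem isOpen_lt_one {F : Type} [Field F] [Valued F ℤᵐ⁰] :
    IsOpen {x : F | Valued.v x < 1} := by
  rw [isOpen_iff_mem_nhds]
  intro x hx
  rw [Valued.mem_nhds]
  refine ⟨1, fun y hy => ?_⟩
  have hy' : Valued.v (y - x) < 1 := by
    have : Valued.v.restrict (y - x) < 1 := hy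
    rw [Valuation.restrict_lt_iff_lt_embedding, map_one] at this
    exact this
  have e : y = (y - x) + x := by ring
  change Valued.v y < 1
  rw [e]
  exact (Valuation.map_add _ _ _).trans_lt (max_lt hy' hx)

private theorem isOpen_eq_one {F : Type} [Field F] [Valued F ℤᵐ⁰] :
    IsOpen {x : F | Valued.v x = 1} := by
  rw [isOpen_iff_mem_nhds]
  intro x hx
  have hx' : Valued.v x = 1 := hx
  have := Valued.locally_const (x := x) (by rw [hx']; exact one_ne_zero)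
  rwa [hx'] at this

private theorem cont_entry {F : Type} [Field F] [Valued F ℤᵐ⁰] (i j : Fin 2) :
    Continuous fun g : GL (Fin 2) F => (g : Matrix (Fin 2) (Fin 2) F) i j :=
  Continuous.matrix_elem Units.continuous_val i j

theorem GO_isOpen {F : Type} [Field F] [Valued F ℤᵐ⁰] :
    IsOpen ((GO F : Subgroup (GL (Fin 2) F)) : Set (GL (Fin 2) F)) := by
  have h1 : ((GO F : Subgroup (GL (Fin 2) F)) : Set (GL (Fin 2) F)) =
      (⋂ i : Fin 2, ⋂ j : Fin 2, (fun g : GL (Fin 2) F =>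
        (g : Matrix (Fin 2) (Fin 2) F) i j) ⁻¹' {x | Valued.v x ≤ 1}) ∩
      (fun g : GL (Fin 2) F => (g : Matrix (Fin 2) (Fin 2) F).det) ⁻¹' {x | Valued.v x = 1} := by
    ext g
    simp only [Set.mem_inter_iff, Set.mem_iInter]
    rfl
  rw [h1]
  refine IsOpen.inter (isOpen_iInter_of_finite fun i => isOpen_iInter_of_finite fun j =>
    (isOpen_le one_ne_zero).preimage (cont_entry i j)) (isOpen_eq_one.preimage ?_)
  exact Continuous.matrix_det Units.continuous_val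

theorem Iw_isOpen {F : Type} [Field F] [Valued F ℤᵐ⁰] :
    IsOpen ((Iw F : Subgroup (GL (Fin 2) F)) : Set (GL (Fin 2) F)) := by
  have h1 : ((Iw F : Subgroup (GL (Fin 2) F)) : Set (GL (Fin 2) F)) =
      (GO F : Set (GL (Fin 2) F)) ∩
      (fun g : GL (Fin 2) F => (g : Matrix (Fin 2) (Fin 2) F) 1 0) ⁻¹' {x | Valued.v x < 1} := rfl
  rw [h1]
  exact GO_isOpen.inter (isOpen_lt_one.preimage (cont_entry 1 0))

theorem KM_isOpen {F : Type} [Field F] [Valued F ℤᵐ⁰] (M : ℕ) :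
    IsOpen ((KM F M : Subgroup (GL (Fin 2) F)) : Set (GL (Fin 2) F)) := by
  have h1 : ((KM F M : Subgroup (GL (Fin 2) F)) : Set (GL (Fin 2) F)) =
      (GO F : Set (GL (Fin 2) F)) ∩ (⋂ i : Fin 2, ⋂ j : Fin 2, (fun g : GL (Fin 2) F =>
        (g : Matrix (Fin 2) (Fin 2) F) i j - (1 : Matrix (Fin 2) (Fin 2) F) i j) ⁻¹'
          {x | Valued.v x ≤ WithZero.exp (-(M : ℤ))}) := by
    ext g
    simp only [Set.mem_inter_iff, Set.mem_iInter]
    rfl
  rw [h1]
  exact GO_isOpen.inter (isOpen_iInter_of_finite fun i => isOpen_iInter_of_finite fun j =>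
    (isOpen_le WithZero.exp_ne_zero).preimage ((cont_entry i j).sub continuous_const))

theorem finite_index_KM {F : Type} [Field F] [Valued F ℤᵐ⁰]
    (hF : ∀ M : ℕ, ∃ s : Finset F, ∀ x : F, Valued.v x ≤ 1 →
      ∃ y ∈ s, Valued.v y ≤ 1 ∧ Valued.v (x - y) ≤ WithZero.exp (-(M : ℤ))) (M : ℕ) :
    ((KM F M).subgroupOf (GO F)).FiniteIndex := by
  classical
  obtain ⟨s, hs⟩ := hF M
  choose! f hf1 hf2 hf3 using hs
  let T : GO F → (Fin 2 → Fin 2 → s) := fun k i j =>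
    ⟨f ((k.1 : Matrix (Fin 2) (Fin 2) F) i j), hf1 _ (k.2.1 i j)⟩
  have hT : ∀ k k' : GO F, T k = T k' → k⁻¹ * k' ∈ (KM F M).subgroupOf (GO F) := by
    intro k k' h
    rw [Subgroup.mem_subgroupOf]
    refine ⟨(k⁻¹ * k').2, fun i j => ?_⟩
    have hsub : ∀ i j, Valued.v ((k'.1 : Matrix (Fin 2) (Fin 2) F) i j -
        (k.1 : Matrix (Fin 2) (Fin 2) F) i j) ≤ WithZero.exp (-(M : ℤ)) := by
      intro i j
      have e1 : f ((k.1 : Matrix (Fin 2) (Fin 2) F) i j) =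
          f ((k'.1 : Matrix (Fin 2) (Fin 2) F) i j) :=
        congrArg Subtype.val (congrFun (congrFun h i) j)
      have h1 := hf3 _ (k'.2.1 i j)
      have h2 := hf3 _ (k.2.1 i j)
      have e2 : (k'.1 : Matrix (Fin 2) (Fin 2) F) i j - (k.1 : Matrix (Fin 2) (Fin 2) F) i j =
          ((k'.1 : Matrix (Fin 2) (Fin 2) F) i j - f ((k'.1 : Matrix (Fin 2) (Fin 2) F) i j)) -
          ((k.1 : Matrix (Fin 2) (Fin 2) F) i j - f ((k.1 : Matrix (Fin 2) (Fin 2) F) i j)) := by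
        rw [e1]; ring
      rw [e2]
      exact (Valuation.map_sub _ _ _).trans (max_le h1 h2)
    have h1 : (((k⁻¹ * k' : GO F) : GL (Fin 2) F) : Matrix (Fin 2) (Fin 2) F) - 1 =
        ((k⁻¹ : GO F).1 : Matrix (Fin 2) (Fin 2) F) *
          ((k'.1 : Matrix (Fin 2) (Fin 2) F) - (k.1 : Matrix (Fin 2) (Fin 2) F)) := by
      rw [mul_sub, ← Units.val_mul, ← Units.val_mul]
      congr 1
      simp
    have h2 := congrFun (congrFun h1 i) j
    rw [Matrix.sub_apply] at h2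
    change Valued.v ((((k⁻¹ * k' : GO F) : GL (Fin 2) F) : Matrix (Fin 2) (Fin 2) F) i j -
      (1 : Matrix (Fin 2) (Fin 2) F) i j) ≤ _
    rw [h2, Matrix.mul_apply, Fin.sum_univ_two]
    refine (Valuation.map_add _ _ _).trans (max_le ?_ ?_)
    · rw [map_mul]
      exact mul_le_of_le_one_of_le ((k⁻¹).2.1 _ _) (hsub _ _)
    · rw [map_mul]
      exact mul_le_of_le_one_of_le ((k⁻¹).2.1 _ _) (hsub _ _)
  have hfin : Finite (GO F ⧸ (KM F M).subgroupOf (GO F)) := by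
    refine Finite.of_injective (fun q : GO F ⧸ (KM F M).subgroupOf (GO F) => T q.out) ?_
    intro q q' h
    have := hT _ _ h
    rw [← QuotientGroup.eq, QuotientGroup.out_eq', QuotientGroup.out_eq'] at this
    exact this
  exact Subgroup.finiteIndex_of_finite_quotient

end TH824.BK
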